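import Mathlib

set_option autoImplicit false

namespace Pool.Agent.Results.MP_4a5947_co.OddHole

/-- Construction trees of series-parallel posets. -/
inductive SP : Type
  | pt : SP
  | par : SP → SP → SP
  | ser : SP → SP → SP

/-- The elements of the poset built by a construction tree. -/
def El : SP → Type
  | .pt => Unit
  | .par a b => El a ⊕ El b
  | .ser a b => El a ⊕ₗ El b

/-- The order: one point, disjoint union, ordinal sum. -/
instance ordEl : (t : SP) → PartialOrder (El t)
  | .pt => inferInstanceAs (PartialOrder Unit)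
  | .par a b =>
    letI := ordEl a
    letI := ordEl b
    inferInstanceAs (PartialOrder (El a ⊕ El b))
  | .ser a b =>
    letI := ordEl a
    letI := ordEl b
    inferInstanceAs (PartialOrder (El a ⊕ₗ El b))

instance fintypeEl : (t : SP) → Fintype (El t)
  | .pt => inferInstanceAs (Fintype Unit)
  | .par a b =>
    letI := fintypeEl a
    letI := fintypeEl b
    inferInstanceAs (Fintype (El a ⊕ El b))
  | .ser a b =>
    letI := fintypeEl a
    letI := fintypeEl b
    inferInstanceAs (Fintype (El a ⊕ El b))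

/-- The series cuts: the edge set created by each series step. -/
def cuts : (t : SP) → Set (Set (El t × El t))
  | .pt => ∅
  | .par a b =>
    {s | ∃ s' ∈ cuts a, s = Prod.map (Sum.inl : El a → El a ⊕ El b) Sum.inl '' s'} ∪
    {s | ∃ s' ∈ cuts b, s = Prod.map (Sum.inr : El b → El a ⊕ El b) Sum.inr '' s'}
  | .ser a b =>
    {s | ∃ s' ∈ cuts a, s = Prod.map (fun x => toLex (Sum.inl x : El a ⊕ El b))
      (fun x => toLex (Sum.inl x : El a ⊕ El b)) '' s'} ∪
    {s | ∃ s' ∈ cuts b, s = Prod.map (fun x => toLex (Sum.inr x : El a ⊕ El b))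
      (fun x => toLex (Sum.inr x : El a ⊕ El b)) '' s'} ∪
    {{e | ∃ (x : El a) (y : El b), IsMax x ∧ IsMin y ∧
      e = (toLex (Sum.inl x : El a ⊕ El b), toLex (Sum.inr y : El a ⊕ El b))}}

section general

variable {P : Type} [PartialOrder P]

/-- A linear extension, given by the positions of the elements. -/
structure LinExt (P : Type) [PartialOrder P] where
  /-- the position of an element -/
  pos : P ≃ Fin (Nat.card P)
  /-- it extends the order -/
  mono : StrictMono pos

/-- The edge `e = (x, y)` of the poset has `y` immediately after `x` in the linear extension. -/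
def Used (L : LinExt P) (e : P × P) : Prop :=
  e.1 ⋖ e.2 ∧ (L.pos e.2 : ℕ) = L.pos e.1 + 1

open Classical in
/-- The weight `c(L)` of a linear extension. -/
noncomputable def value [Fintype P] (c : P × P → ℕ) (L : LinExt P) : ℕ :=
  ∑ e : P × P, if Used L e then c e else 0

/-- The bifan at `v`: all edges incident with `v`. -/
def bifan (v : P) : Set (P × P) := {e | e.1 ⋖ e.2 ∧ (e.1 = v ∨ e.2 = v)}

/-- The bifan at `v` is paralleled. -/
def Paralleled (v : P) : Prop :=
  ∃ u w z : P, u ⋖ v ∧ v ⋖ w ∧ z ≠ v ∧ (u ⋖ z ∨ z ⋖ u) ∧ (w ⋖ z ∨ z ⋖ w)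

open Classical in
/-- The family `F` (a multiset of edge sets) covers the weighting `c`. -/
def Covers (c : P × P → ℕ) (F : Multiset (Set (P × P))) : Prop :=
  ∀ e : P × P, e.1 ⋖ e.2 → c e ≤ F.countP (fun s => e ∈ s)

/-- A set of edges of which every linear extension uses at most one. -/
def CapOne (s : Set (P × P)) : Prop :=
  ∀ L : LinExt P, ∀ e ∈ s, ∀ e' ∈ s, Used L e → Used L e' → e = e'

end general


section decide

instance decEqEl : (t : SP) → DecidableEq (El t)
  | .pt => inferInstanceAs (DecidableEq Unit)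
  | .par a b =>
    letI := decEqEl a
    letI := decEqEl b
    inferInstanceAs (DecidableEq (El a ⊕ El b))
  | .ser a b =>
    letI := decEqEl a
    letI := decEqEl b
    inferInstanceAs (DecidableEq (El a ⊕ El b))

/-- Boolean version of the strict order. -/
def ltb : (t : SP) → El t → El t → Bool
  | .pt => fun _ _ => false
  | .par a b => fun (x y : El a ⊕ El b) =>
    match x, y with
    | .inl x, .inl y => ltb a x y
    | .inr x, .inr y => ltb b x y
    | .inl _, .inr _ => false
    | .inr _, .inl _ => false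
  | .ser a b => fun (x y : El a ⊕ El b) =>
    match x, y with
    | .inl x, .inl y => ltb a x y
    | .inr x, .inr y => ltb b x y
    | .inl _, .inr _ => true
    | .inr _, .inl _ => false

theorem ltb_iff : (t : SP) → (x y : El t) → (ltb t x y = true ↔ x < y)
  | .pt, x, y => by
    have : ¬ x < y := by
      have h : x = y := rfl
      rw [h]; exact lt_irrefl _
    simp [ltb, this]
  | .par a b, x, y => by
    match x, y with
    | .inl x, .inl y => exact (ltb_iff a x y).trans Sum.inl_lt_inl_iff.symm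
    | .inr x, .inr y => exact (ltb_iff b x y).trans Sum.inr_lt_inr_iff.symm
    | .inl x, .inr y => exact ⟨fun h => Bool.noConfusion h, fun h => absurd h Sum.not_inl_lt_inr⟩
    | .inr x, .inl y => exact ⟨fun h => Bool.noConfusion h, fun h => absurd h Sum.not_inr_lt_inl⟩
  | .ser a b, x, y => by
    match x, y with
    | .inl x, .inl y => exact (ltb_iff a x y).trans Sum.Lex.inl_lt_inl_iff.symm
    | .inr x, .inr y => exact (ltb_iff b x y).trans Sum.Lex.inr_lt_inr_iff.symm
    | .inl x, .inr y => exact ⟨fun _ => Sum.Lex.inl_lt_inr _ _, fun _ => rfl⟩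
    | .inr x, .inl y => exact ⟨fun h => Bool.noConfusion h, fun h => absurd h Sum.Lex.not_inr_lt_inl⟩

/-- Boolean version of the covering relation. -/
def covb (t : SP) (x y : El t) : Bool := ltb t x y && decide (∀ z, ¬ (ltb t x z = true ∧ ltb t z y = true))

theorem covb_iff (t : SP) (x y : El t) : covb t x y = true ↔ x ⋖ y := by
  simp only [covb, Bool.and_eq_true, decide_eq_true_eq, ltb_iff, CovBy]
  constructor
  · rintro ⟨h1, h2⟩
    exact ⟨h1, fun z hz hz' => h2 z ⟨hz, hz'⟩⟩
  · rintro ⟨h1, h2⟩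
    exact ⟨h1, fun z hz => h2 hz.1 hz.2⟩

instance (t : SP) : DecidableRel ((· < ·) : El t → El t → Prop) :=
  fun x y => decidable_of_iff _ (ltb_iff t x y)

instance (t : SP) : DecidableRel ((· ⋖ ·) : El t → El t → Prop) :=
  fun x y => decidable_of_iff _ (covb_iff t x y)

end decide



theorem isMin_of (t : SP) (x : El t) (h : ∀ y, ltb t y x = false) : IsMin x := by
  rw [isMin_iff_forall_not_lt]
  intro y hy
  rw [← ltb_iff, h y] at hy
  exact Bool.noConfusion hy

theorem isMax_of (t : SP) (x : El t) (h : ∀ y, ltb t x y = false) : IsMax x := by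
  rw [isMax_iff_forall_not_lt]
  intro y hy
  rw [← ltb_iff, h y] at hy
  exact Bool.noConfusion hy

/-- The counterexample `1 ⊕ (1 ∥ (2 ⊕ 2 ⊕ 2)) ⊕ 1`. -/
def t0 : SP := .ser .pt (.ser (.par .pt (.ser (.par .pt .pt) (.ser (.par .pt .pt) (.par .pt .pt)))) .pt)

def u : El t0 := Sum.inl ()
def w : El t0 := Sum.inr (Sum.inr ())
def v : El t0 := Sum.inr (Sum.inl (Sum.inl ()))
def z1 : El t0 := Sum.inr (Sum.inl (Sum.inr (Sum.inl (Sum.inl ()))))
def z1' : El t0 := Sum.inr (Sum.inl (Sum.inr (Sum.inl (Sum.inr ()))))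
def z2 : El t0 := Sum.inr (Sum.inl (Sum.inr (Sum.inr (Sum.inl (Sum.inl ())))))
def z2' : El t0 := Sum.inr (Sum.inl (Sum.inr (Sum.inr (Sum.inl (Sum.inr ())))))
def z3 : El t0 := Sum.inr (Sum.inl (Sum.inr (Sum.inr (Sum.inr (Sum.inl ())))))
def z3' : El t0 := Sum.inr (Sum.inl (Sum.inr (Sum.inr (Sum.inr (Sum.inr ())))))

theorem cases_t0 : ∀ x : El t0, x = u ∨ x = v ∨ x = w ∨ x = z1 ∨ x = z1' ∨ x = z2 ∨ x = z2' ∨
    x = z3 ∨ x = z3' := by
  decide

/-- The seven edges of weight `1`. -/
def m : Fin 7 → El t0 × El t0 :=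
  ![(u, v), (u, z1), (z1, z2), (z2, z3'), (z2', z3), (z3, w), (v, w)]

theorem m_inj : Function.Injective m := by decide

theorem m_cov : ∀ i, (m i).1 ⋖ (m i).2 := by decide

/-- The weighting: `1` on the seven edges `m i`, and `0` on all others. -/
def c0 (e : El t0 × El t0) : ℕ := if ∃ i, e = m i then 1 else 0

theorem c0_m (i : Fin 7) : c0 (m i) = 1 := by
  unfold c0
  rw [if_pos ⟨i, rfl⟩]

theorem card_t0 : Nat.card (El t0) = 9 := by
  rw [Nat.card_eq_fintype_card]
  decide

/-- The linear extension given by a list. -/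
noncomputable def mk (l : List (El t0)) (h1 : l.length = 9) (h2 : ∀ x, x ∈ l)
    (h3 : ∀ x y, ltb t0 x y = true → l.idxOf x < l.idxOf y) : LinExt (El t0) where
  pos := Equiv.ofBijective
    (fun x => (⟨l.idxOf x, by
      rw [card_t0, ← h1]; exact List.idxOf_lt_length_of_mem (h2 x)⟩ : Fin (Nat.card (El t0))))
    (by
      have hinj : Function.Injective
          (fun x => (⟨l.idxOf x, by
            rw [card_t0, ← h1]; exact List.idxOf_lt_length_of_mem (h2 x)⟩ :
              Fin (Nat.card (El t0)))) := by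
        intro x y hxy
        have h : l.idxOf x = l.idxOf y := congrArg Fin.val hxy
        exact (List.idxOf_inj (h2 x)).mp h
      exact hinj.bijective_of_nat_card_le (by simp))
  mono := by
    intro x y hxy
    exact h3 x y ((ltb_iff t0 x y).mpr hxy)

theorem mk_used (l : List (El t0)) (h1 : l.length = 9) (h2 : ∀ x, x ∈ l)
    (h3 : ∀ x y, ltb t0 x y = true → l.idxOf x < l.idxOf y) (e : El t0 × El t0)
    (he : e.1 ⋖ e.2) (hs : l.idxOf e.2 = l.idxOf e.1 + 1) : Used (mk l h1 h2 h3) e :=
  ⟨he, hs⟩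

/-- Seven orders realising the seven maximal stable sets. -/
def lst : Fin 7 → List (El t0) :=
  ![[u, v, z1', z1, z2, z2', z3, z3', w],
    [u, z1, v, z1', z2', z2, z3', z3, w],
    [u, z1', z1, z2, z2', z3, z3', v, w],
    [u, v, z1, z1', z2', z2, z3', z3, w],
    [u, z1, z1', z2, z2', z3, z3', v, w],
    [u, v, z1', z1, z2, z2', z3', z3, w],
    [u, z1, z1', z2', z2, z3', z3, v, w]]

theorem lst_len : ∀ i, (lst i).length = 9 := by decide

theorem lst_mem : ∀ i x, x ∈ lst i := by decide

theorem lst_mono : ∀ i x y, ltb t0 x y = true → (lst i).idxOf x < (lst i).idxOf y := by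
  decide +kernel

/-- The seven linear extensions. -/
noncomputable def E (i : Fin 7) : LinExt (El t0) := mk (lst i) (lst_len i) (lst_mem i) (lst_mono i)

theorem lst_used : ∀ i : Fin 7,
    ((lst i).idxOf (m i).2 = (lst i).idxOf (m i).1 + 1) ∧
    ((lst i).idxOf (m (i + 2)).2 = (lst i).idxOf (m (i + 2)).1 + 1) ∧
    ((lst i).idxOf (m (i + 4)).2 = (lst i).idxOf (m (i + 4)).1 + 1) := by
  decide +kernel

theorem E_used0 (i : Fin 7) : Used (E i) (m i) :=
  mk_used _ _ _ _ _ (m_cov _) (lst_used i).1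

theorem E_used2 (i : Fin 7) : Used (E i) (m (i + 2)) :=
  mk_used _ _ _ _ _ (m_cov _) (lst_used i).2.1

theorem E_used4 (i : Fin 7) : Used (E i) (m (i + 4)) :=
  mk_used _ _ _ _ _ (m_cov _) (lst_used i).2.2

/-! ### No linear extension uses two cyclically consecutive edges `m i`, `m (i + 1)` -/

theorem conflict (L : LinExt (El t0)) (i : Fin 7) (h : Used L (m i)) (h' : Used L (m (i + 1))) :
    False := by
  have inj : ∀ x y : El t0, x ≠ y → (L.pos x : ℕ) ≠ L.pos y := by
    intro x y hxy h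
    exact hxy (L.pos.injective (Fin.ext h))
  have lt : ∀ x y : El t0, ltb t0 x y = true → (L.pos x : ℕ) < L.pos y := by
    intro x y h
    exact L.mono ((ltb_iff t0 x y).mp h)
  have a1 := inj v z1 (by decide)
  have a2 := inj z1' z1 (by decide)
  have a3 := inj z2' z2 (by decide)
  have a4 := inj z3' z3 (by decide)
  have a5 := inj z3 v (by decide)
  have b1 := lt u z1' (by decide)
  have b2 := lt z1' z2 (by decide)
  have b3 := lt z1 z2' (by decide)
  have b4 := lt z2' z3' (by decide)
  have b5 := lt z2 z3 (by decide)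
  have b6 := lt z2' z3' (by decide)
  have b7 := lt z3' w (by decide)
  have b8 := lt u z1 (by decide)
  have b9 := lt z1 w (by decide)
  obtain ⟨-, h1⟩ := h
  obtain ⟨-, h2⟩ := h'
  fin_cases i <;> simp only [m] at h1 h2 <;>
    simp only [Fin.isValue, Fin.reduceFinMk, Fin.reduceAdd, Matrix.cons_val] at h1 h2
  · omega
  · omega
  · omega
  · omega
  · omega
  · omega
  · omega

/-- At most three of the seven edges are used by a linear extension. -/
theorem value_le (L : LinExt (El t0)) : value c0 L ≤ 3 := by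
  classical
  have hsum : value c0 L = ∑ i : Fin 7, if Used L (m i) then 1 else 0 := by
    unfold value
    have h1 : (∑ e : El t0 × El t0, if Used L e then c0 e else 0) =
        ∑ e ∈ Finset.univ.image m, if Used L e then c0 e else 0 := by
      symm
      apply Finset.sum_subset (Finset.subset_univ _)
      intro e _ he
      have : c0 e = 0 := by
        unfold c0
        rw [if_neg]
        rintro ⟨i, rfl⟩
        exact he (Finset.mem_image_of_mem _ (Finset.mem_univ _))
      rw [this]; simp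
    rw [h1, Finset.sum_image (fun i _ j _ h => m_inj h)]
    apply Finset.sum_congr rfl
    intro i _
    rw [c0_m]
  have hc : ∀ i : Fin 7, (if Used L (m i) then 1 else 0) + (if Used L (m (i + 1)) then 1 else 0) ≤ 1 := by
    intro i
    by_cases h : Used L (m i)
    · rw [if_pos h, if_neg (conflict L i h)]
    · rw [if_neg h]; split_ifs <;> simp
  rw [hsum, Fin.sum_univ_seven]
  have h0 := hc 0
  have h1 := hc 1
  have h2 := hc 2
  have h3 := hc 3
  have h4 := hc 4
  have h5 := hc 5
  have h6 := hc 6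
  simp only [Fin.isValue, Fin.reduceAdd] at h0 h1 h2 h3 h4 h5 h6
  omega

theorem le_value : 3 ≤ value c0 (E 0) := by
  classical
  unfold value
  have h : ∑ e ∈ ({m 0, m 2, m 4} : Finset (El t0 × El t0)),
      (if Used (E 0) e then c0 e else 0) = 3 := by
    rw [Finset.sum_insert, Finset.sum_insert, Finset.sum_singleton]
    · have e0 : Used (E 0) (m 0) := E_used0 0
      have e2 : Used (E 0) (m 2) := E_used2 0
      have e4 : Used (E 0) (m 4) := E_used4 0
      rw [if_pos e0, if_pos e2, if_pos e4, c0_m, c0_m, c0_m]; rfl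
    · decide
    · decide
  rw [← h]
  exact Finset.sum_le_univ_sum_of_nonneg (fun _ => Nat.zero_le _)

/-! ### The lower bound for covering families -/

/-- `s` contains at most two of the seven edges, and then cyclically consecutive ones. -/
def Two (s : Set (El t0 × El t0)) : Prop := ∃ i : Fin 7, ∀ j, m j ∈ s → j = i ∨ j = i + 1

theorem four_le (F : Multiset (Set (El t0 × El t0))) (hF : ∀ s ∈ F, Two s)
    (hc : Covers c0 F) : 4 ≤ F.card := by
  classical
  have h1 : ∀ F : Multiset (Set (El t0 × El t0)), (∀ s ∈ F, Two s) →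
      ∑ j : Fin 7, F.countP (fun s => m j ∈ s) ≤ 2 * F.card := by
    intro F
    induction F using Multiset.induction_on with
    | empty => intro _; simp
    | cons s F ih =>
      intro h
      have ih' := ih (fun s' hs' => h s' (Multiset.mem_cons_of_mem hs'))
      obtain ⟨i, hi⟩ := h s (Multiset.mem_cons_self s F)
      have h2 : ∑ j : Fin 7, (if m j ∈ s then 1 else 0) ≤ 2 := by
        calc ∑ j : Fin 7, (if m j ∈ s then 1 else 0)
            ≤ ∑ j : Fin 7, (if j = i ∨ j = i + 1 then 1 else 0) := by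
              apply Finset.sum_le_sum
              intro j _
              by_cases hj : m j ∈ s
              · rw [if_pos hj, if_pos (hi j hj)]
              · rw [if_neg hj]; exact Nat.zero_le _
          _ ≤ 2 := by
              clear hi ih ih' h
              revert i
              decide
      simp only [Multiset.countP_cons, Finset.sum_add_distrib, Multiset.card_cons]
      omega
  have h3 := h1 F hF
  have h4 : ∀ j : Fin 7, 1 ≤ F.countP (fun s => m j ∈ s) := by
    intro j
    have := hc (m j) (m_cov j)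
    rw [c0_m] at this
    convert this
  have h5 : ∑ j : Fin 7, 1 ≤ ∑ j : Fin 7, F.countP (fun s => m j ∈ s) :=
    Finset.sum_le_sum (fun j _ => h4 j)
  simp only [Finset.sum_const, Finset.card_univ, Fintype.card_fin, smul_eq_mul] at h5
  omega

theorem two_bifan (x : El t0) : Two (bifan x) := by
  have h : ∀ x : El t0, ∃ i : Fin 7, ∀ j,
      ((m j).1 ⋖ (m j).2 ∧ ((m j).1 = x ∨ (m j).2 = x)) → j = i ∨ j = i + 1 := by
    decide +kernel
  exact h x

theorem clique : ∀ b : Fin 7 → Bool,
    (∀ i, b i = true → b (i + 2) = true → False) → (∀ i, b i = true → b (i + 4) = true → False) →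
    ∃ i, ∀ j, b j = true → j = i ∨ j = i + 1 := by
  decide +kernel

theorem two_capOne (s : Set (El t0 × El t0)) (hs : CapOne s) : Two s := by
  classical
  obtain ⟨i, hi⟩ := clique (fun j => decide (m j ∈ s)) (by
    intro i h1 h2
    rw [decide_eq_true_eq] at h1 h2
    have := m_inj (hs (E i) _ h1 _ h2 (E_used0 i) (E_used2 i))
    clear h1 h2
    revert i
    decide) (by
    intro i h1 h2
    rw [decide_eq_true_eq] at h1 h2
    have := m_inj (hs (E i) _ h1 _ h2 (E_used0 i) (E_used4 i))
    clear h1 h2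
    revert i
    decide)
  exact ⟨i, fun j hj => hi j (by rw [decide_eq_true_eq]; exact hj)⟩


/-! ### The series cuts of the counterexample -/

theorem mem_cuts_pt (s : Set (El .pt × El .pt)) : s ∈ cuts .pt ↔ False := Iff.rfl

theorem mem_cuts_par (a b : SP) (s : Set (El (.par a b) × El (.par a b))) : s ∈ cuts (.par a b) ↔
    (∃ s' ∈ cuts a, s = Prod.map (Sum.inl : El a → El a ⊕ El b) Sum.inl '' s') ∨
    (∃ s' ∈ cuts b, s = Prod.map (Sum.inr : El b → El a ⊕ El b) Sum.inr '' s') := Iff.rfl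

theorem mem_cuts_ser (a b : SP) (s : Set (El (.ser a b) × El (.ser a b))) : s ∈ cuts (.ser a b) ↔
    ((∃ s' ∈ cuts a, s = Prod.map (Sum.inl : El a → El a ⊕ El b) Sum.inl '' s') ∨
    (∃ s' ∈ cuts b, s = Prod.map (Sum.inr : El b → El a ⊕ El b) Sum.inr '' s')) ∨
    s = {e | ∃ (x : El a) (y : El b), IsMax x ∧ IsMin y ∧
      e = ((Sum.inl x : El a ⊕ El b), (Sum.inr y : El a ⊕ El b))} := Iff.rfl

theorem not_mem_cuts_two (s : Set (El (.par .pt .pt) × El (.par .pt .pt))) :
    s ∉ cuts (.par .pt .pt) := by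
  rw [mem_cuts_par]
  rintro (⟨s', h, -⟩ | ⟨s', h, -⟩) <;> exact h

/-- Main properties of the four series cuts. -/
theorem cuts_cases (s : Set (El t0 × El t0)) (hs : s ∈ cuts t0) :
    (s ⊆ {e | e.1 = u} ∧ (u, v) ∈ s ∧ (u, z1) ∈ s) ∨
    (s ⊆ {e | (e.1 = z1 ∨ e.1 = z1') ∧ (e.2 = z2 ∨ e.2 = z2')} ∧ (z1, z2) ∈ s ∧ (z1, z2') ∈ s) ∨
    (s ⊆ {e | (e.1 = z2 ∨ e.1 = z2') ∧ (e.2 = z3 ∨ e.2 = z3')} ∧ (z2, z3) ∈ s ∧ (z2, z3') ∈ s) ∨
    (s ⊆ {e | e.2 = w} ∧ (v, w) ∈ s ∧ (z3, w) ∈ s) := by
  rcases (mem_cuts_ser _ _ s).mp hs with (⟨s1, h1, rfl⟩ | ⟨s1, h1, rfl⟩) | rfl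
  · exact h1.elim
  · rcases (mem_cuts_ser _ _ s1).mp h1 with (⟨s2, h2, rfl⟩ | ⟨s2, h2, rfl⟩) | rfl
    · rcases (mem_cuts_par _ _ s2).mp h2 with ⟨s3, h3, rfl⟩ | ⟨s3, h3, rfl⟩
      · exact h3.elim
      · rcases (mem_cuts_ser _ _ s3).mp h3 with (⟨s4, h4, rfl⟩ | ⟨s4, h4, rfl⟩) | rfl
        · exact absurd h4 (not_mem_cuts_two s4)
        · rcases (mem_cuts_ser _ _ s4).mp h4 with (⟨s5, h5, rfl⟩ | ⟨s5, h5, rfl⟩) | rfl
          · exact absurd h5 (not_mem_cuts_two s5)
          · exact absurd h5 (not_mem_cuts_two s5)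
          · right; right; left
            refine ⟨?_, ?_, ?_⟩
            · rintro e ⟨-, ⟨-, ⟨-, ⟨-, ⟨x, y, -, -, rfl⟩, rfl⟩, rfl⟩, rfl⟩, rfl⟩
              rcases x with x | x <;> rcases y with y | y
              · exact ⟨Or.inl rfl, Or.inl rfl⟩
              · exact ⟨Or.inl rfl, Or.inr rfl⟩
              · exact ⟨Or.inr rfl, Or.inl rfl⟩
              · exact ⟨Or.inr rfl, Or.inr rfl⟩
            · exact ⟨_, ⟨_, ⟨_, ⟨_, ⟨Sum.inl (), Sum.inl (), isMax_of _ _ (by decide),
                isMin_of _ _ (by decide), rfl⟩, rfl⟩, rfl⟩, rfl⟩, rfl⟩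
            · exact ⟨_, ⟨_, ⟨_, ⟨_, ⟨Sum.inl (), Sum.inr (), isMax_of _ _ (by decide),
                isMin_of _ _ (by decide), rfl⟩, rfl⟩, rfl⟩, rfl⟩, rfl⟩
        · right; left
          refine ⟨?_, ?_, ?_⟩
          · rintro e ⟨-, ⟨-, ⟨-, ⟨x, y, -, hy, rfl⟩, rfl⟩, rfl⟩, rfl⟩
            rcases y with y | y
            · rcases x with x | x <;> rcases y with y | y
              · exact ⟨Or.inl rfl, Or.inl rfl⟩
              · exact ⟨Or.inl rfl, Or.inr rfl⟩
              · exact ⟨Or.inr rfl, Or.inl rfl⟩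
              · exact ⟨Or.inr rfl, Or.inr rfl⟩
            · exfalso
              have h6 := (ltb_iff (.ser (.par .pt .pt) (.par .pt .pt)) (Sum.inl (Sum.inl ()))
                (Sum.inr y)).mp rfl
              exact (isMin_iff_forall_not_lt.mp hy) _ h6
          · exact ⟨_, ⟨_, ⟨_, ⟨Sum.inl (), Sum.inl (Sum.inl ()), isMax_of _ _ (by decide),
              isMin_of _ _ (by decide), rfl⟩, rfl⟩, rfl⟩, rfl⟩
          · exact ⟨_, ⟨_, ⟨_, ⟨Sum.inl (), Sum.inl (Sum.inr ()), isMax_of _ _ (by decide),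
              isMin_of _ _ (by decide), rfl⟩, rfl⟩, rfl⟩, rfl⟩
    · exact h2.elim
    · right; right; right
      refine ⟨?_, ?_, ?_⟩
      · rintro e ⟨-, ⟨x, y, -, -, rfl⟩, rfl⟩
        rfl
      · exact ⟨_, ⟨Sum.inl (), (), isMax_of _ _ (by decide), isMin_of _ _ (by decide), rfl⟩, rfl⟩
      · exact ⟨_, ⟨Sum.inr (Sum.inr (Sum.inr (Sum.inl ()))), (), isMax_of _ _ (by decide),
          isMin_of _ _ (by decide), rfl⟩, rfl⟩
  · left
    refine ⟨?_, ?_, ?_⟩
    · rintro e ⟨x, y, -, -, rfl⟩
      rfl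
    · exact ⟨(), Sum.inl (Sum.inl ()), isMax_of _ _ (by decide), isMin_of _ _ (by decide), rfl⟩
    · exact ⟨(), Sum.inl (Sum.inr (Sum.inl (Sum.inl ()))), isMax_of _ _ (by decide),
        isMin_of _ _ (by decide), rfl⟩

theorem two_cuts (s : Set (El t0 × El t0)) (hs : s ∈ cuts t0) : Two s := by
  rcases cuts_cases s hs with ⟨h, -⟩ | ⟨h, -⟩ | ⟨h, -⟩ | ⟨h, -⟩
  · refine ⟨0, fun j hj => ?_⟩
    have := h hj
    revert this; clear hj; revert j; decide
  · refine ⟨2, fun j hj => ?_⟩
    have := h hj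
    revert this; clear hj; revert j; decide
  · refine ⟨3, fun j hj => ?_⟩
    have := h hj
    revert this; clear hj; revert j; decide
  · refine ⟨5, fun j hj => ?_⟩
    have := h hj
    revert this; clear hj; revert j; decide

theorem ncard_cuts (s : Set (El t0 × El t0)) (hs : s ∈ cuts t0) : s.ncard ≠ 1 := by
  have key : ∀ a b : El t0 × El t0, a ∈ s → b ∈ s → a ≠ b → s.ncard ≠ 1 := by
    intro a b ha hb hab h
    obtain ⟨x, rfl⟩ := Set.ncard_eq_one.mp h
    exact hab ((Set.mem_singleton_iff.mp ha).trans (Set.mem_singleton_iff.mp hb).symm)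
  rcases cuts_cases s hs with ⟨-, h1, h2⟩ | ⟨-, h1, h2⟩ | ⟨-, h1, h2⟩ | ⟨-, h1, h2⟩ <;>
    exact key _ _ h1 h2 (by decide)

/-- The series cut at the bottom. -/
def cutS : Set (El t0 × El t0) :=
  {e | ∃ (x : El .pt) (y : El (.ser (.par .pt (.ser (.par .pt .pt)
      (.ser (.par .pt .pt) (.par .pt .pt)))) .pt)),
    IsMax x ∧ IsMin y ∧ e = (toLex (Sum.inl x), toLex (Sum.inr y))}

theorem cutS_mem : cutS ∈ cuts t0 := Or.inr rfl

/-- The series cut at the top. -/
def cutT : Set (El t0 × El t0) :=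
  Prod.map Sum.inr Sum.inr '' {e | ∃ (x : El (.par .pt (.ser (.par .pt .pt)
      (.ser (.par .pt .pt) (.par .pt .pt))))) (y : El .pt),
    IsMax x ∧ IsMin y ∧ e = (toLex (Sum.inl x), toLex (Sum.inr y))}

theorem cutT_mem : cutT ∈ cuts t0 := Or.inl (Or.inr ⟨_, Or.inr rfl, rfl⟩)

/-- A covering family with four members. -/
def F0 : Multiset (Set (El t0 × El t0)) := {cutS, bifan z2, bifan z3, cutT}

theorem covers_F0 : Covers c0 F0 := by
  classical
  intro e _
  unfold c0
  split_ifs with h
  · obtain ⟨i, rfl⟩ := h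
    rw [Nat.one_le_iff_ne_zero, Ne, Multiset.countP_eq_zero]
    push Not
    have hb : ∀ x : El t0, ((m i).1 ⋖ (m i).2 ∧ ((m i).1 = x ∨ (m i).2 = x)) → m i ∈ bifan x :=
      fun x h => h
    fin_cases i
    · exact ⟨cutS, by simp [F0], ⟨(), Sum.inl (Sum.inl ()), isMax_of _ _ (by decide),
        isMin_of _ _ (by decide), rfl⟩⟩
    · exact ⟨cutS, by simp [F0], ⟨(), Sum.inl (Sum.inr (Sum.inl (Sum.inl ()))),
        isMax_of _ _ (by decide), isMin_of _ _ (by decide), rfl⟩⟩
    · exact ⟨bifan z2, by simp [F0], hb z2 (by decide)⟩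
    · exact ⟨bifan z2, by simp [F0], hb z2 (by decide)⟩
    · exact ⟨bifan z3, by simp [F0], hb z3 (by decide)⟩
    · exact ⟨bifan z3, by simp [F0], hb z3 (by decide)⟩
    · exact ⟨cutT, by simp [F0], ⟨_, ⟨Sum.inl (), (), isMax_of _ _ (by decide),
        isMin_of _ _ (by decide), rfl⟩, rfl⟩⟩
  · exact Nat.zero_le _

theorem paralleled_z2 : Paralleled z2 :=
  ⟨z1, z3, z2', by decide, by decide, by decide, by decide, by decide⟩

theorem paralleled_z3 : Paralleled z3 :=
  ⟨z2, w, z3', by decide, by decide, by decide, by decide, by decide⟩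

/-- A proper 2-colouring of the covering graph. -/
def col (x : El t0) : Fin 2 :=
  if x = u ∨ x = z2 ∨ x = z2' ∨ x = w then 0 else 1

theorem bip : (SimpleGraph.hasse (El t0)).IsBipartite := by
  refine ⟨SimpleGraph.Coloring.mk col ?_⟩
  intro x y h
  have key : ∀ x y : El t0, (x ⋖ y ∨ y ⋖ x) → col x ≠ col y := by decide +kernel
  exact key x y h

/-- **Negative answer to Q1.** There is a series-parallel poset with bipartite covering graph and
no 1-edge series cut, namely `1 ⊕ (1 ∥ (2 ⊕ 2 ⊕ 2)) ⊕ 1`, and a weighting with values in `{0, 1}`,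
for which the maximum weight `C*` of a linear extension is
`3`, while the least cardinality of a covering family of series cuts and paralleled bifans is `4`.
Even if arbitrary bifans, and arbitrary sets of edges of which no linear extension uses more than
one, are allowed as members besides the series cuts, every covering family has at least four
members. -/
theorem result : ∃ (t : SP) (c : El t × El t → ℕ),
    t = .ser .pt (.ser (.par .pt
      (.ser (.par .pt .pt) (.ser (.par .pt .pt) (.par .pt .pt)))) .pt) ∧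
    (∀ e, c e ≤ 1) ∧
    (SimpleGraph.hasse (El t)).IsBipartite ∧
    (∀ s ∈ cuts t, s.ncard ≠ 1) ∧
    IsGreatest {k | ∃ L : LinExt (El t), value c L = k} 3 ∧
    IsLeast {k | ∃ F : Multiset (Set (El t × El t)),
      (∀ s ∈ F, s ∈ cuts t ∨ ∃ x, Paralleled x ∧ s = bifan x) ∧ Covers c F ∧ F.card = k} 4 ∧
    (∀ F : Multiset (Set (El t × El t)),
      (∀ s ∈ F, s ∈ cuts t ∨ (∃ x, s = bifan x) ∨ CapOne s) → Covers c F → 4 ≤ F.card) := by
  have key : ∀ F : Multiset (Set (El t0 × El t0)),
      (∀ s ∈ F, s ∈ cuts t0 ∨ (∃ x, s = bifan x) ∨ CapOne s) → Covers c0 F → 4 ≤ F.card := by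
    intro F hF hc
    apply four_le F _ hc
    intro s hs
    rcases hF s hs with h | ⟨x, rfl⟩ | h
    · exact two_cuts s h
    · exact two_bifan x
    · exact two_capOne s h
  refine ⟨t0, c0, rfl, fun e => by unfold c0; split_ifs <;> simp, bip, ncard_cuts, ⟨⟨E 0, le_antisymm (value_le _) le_value⟩, ?_⟩, ⟨⟨F0, ?_,
    covers_F0, rfl⟩, ?_⟩, key⟩
  · rintro k ⟨L, rfl⟩
    exact value_le L
  · intro s hs
    simp only [F0, Multiset.insert_eq_cons, Multiset.mem_cons, Multiset.mem_singleton] at hs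
    rcases hs with rfl | rfl | rfl | rfl
    · exact Or.inl cutS_mem
    · exact Or.inr ⟨z2, paralleled_z2, rfl⟩
    · exact Or.inr ⟨z3, paralleled_z3, rfl⟩
    · exact Or.inl cutT_mem
  · rintro k ⟨F, hF, hc, rfl⟩
    apply key F _ hc
    intro s hs
    rcases hF s hs with h | ⟨x, -, h⟩
    · exact Or.inl h
    · exact Or.inr (Or.inl ⟨x, h⟩)

end Pool.Agent.Results.MP_4a5947_co.OddHole
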